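import Pool.Agent.H35.S2.NKDa

/-!
# MP_70ba79_ag, board `s2_modules`, row NKD: the Jacobian ideal at a node
-/

set_option autoImplicit false

open MvPolynomial SC Pool.Agent.H27.LV
open Pool.Agent.H92.SF Pool.Agent.H3.SF
open Pool.Agent.H17.SD (PA HRel Prj)
open Pool.Agent.H3.S2
open Pool.Agent.H94.SFG (gr minor_ne)

namespace Pool.Agent.H35.S2

section

variable {k F σ : Type} [Field k] [Field F] [Algebra k F] [Fintype σ]

/-- the gradient as a linear map -/
noncomputable def grL (s : σ → k) : MvPolynomial σ k →ₗ[k] (σ → k) where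
  toFun f := gr s f
  map_add' f g := by
    funext j
    simp [gr]
  map_smul' c f := by
    funext j
    simp [gr, smul_eval]

theorem Mnr_eq {r : ℕ} (g : MvPolynomial σ k) (f : Fin r → MvPolynomial σ k)
    (q : Fin (r + 1) → σ) : Mnr g f q =
      (Matrix.of fun i j => (Fin.snoc (fun i c => pderiv c (f i)) (fun c => pderiv c g) :
        Fin (r + 1) → σ → MvPolynomial σ k) i (q j)).det := by
  unfold Mnr
  congr 1
  ext1 i j
  rw [Matrix.of_apply, Matrix.of_apply]
  refine Fin.lastCases ?_ (fun i => ?_) i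
  · rw [Fin.snoc_last, Fin.snoc_last]
  · rw [Fin.snoc_castSucc, Fin.snoc_castSucc]

theorem Mnr_lap {r : ℕ} (g : MvPolynomial σ k) (f : Fin r → MvPolynomial σ k)
    (q : Fin (r + 1) → σ) : Mnr g f q = ∑ j : Fin (r + 1), pderiv (q j) g *
      ((-1) ^ (r + (j : ℕ)) *
        (Matrix.of fun i l : Fin r => pderiv (q (j.succAbove l)) (f i)).det) := by
  rw [Mnr_eq, lap]

theorem Mnr_sub {r : ℕ} (g g' : MvPolynomial σ k) (f : Fin r → MvPolynomial σ k)
    (q : Fin (r + 1) → σ) : Mnr (g - g') f q = Mnr g f q - Mnr g' f q := by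
  rw [Mnr_lap, Mnr_lap, Mnr_lap, ← Finset.sum_sub_distrib]
  refine Finset.sum_congr rfl fun j _ => ?_
  rw [map_sub, sub_mul]

theorem eval_Mnr {r : ℕ} (s : σ → k) (g : MvPolynomial σ k) (f : Fin r → MvPolynomial σ k)
    (q : Fin (r + 1) → σ) : eval s (Mnr g f q) =
      (Matrix.of fun i j => (Fin.snoc (fun i => gr s (f i)) (gr s g) :
        Fin (r + 1) → σ → k) i (q j)).det := by
  rw [Mnr_lap, lap, map_sum]
  refine Finset.sum_congr rfl fun j _ => ?_
  rw [map_mul, map_mul, map_pow, map_neg, map_one, RingHom.map_det]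
  rfl

theorem gr_Mnr {r : ℕ} (s : σ → k) (g : MvPolynomial σ k)
    (hg : ∀ j, eval s (pderiv j g) = 0) (f : Fin r → MvPolynomial σ k)
    (q : Fin (r + 1) → σ) : gr s (Mnr g f q) = fun i₀ =>
      ∑ i, eval s (pderiv i₀ (pderiv i g)) * yq (fun i => gr s (f i)) q i := by
  funext i₀
  rw [sum_yq, lap]
  show eval s (pderiv i₀ (Mnr g f q)) = _
  rw [Mnr_lap, map_sum, map_sum]
  refine Finset.sum_congr rfl fun j _ => ?_
  rw [Derivation.leibniz, smul_eq_mul, smul_eq_mul, map_add, map_mul, hg, zero_mul, zero_add,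
    map_mul, map_mul, map_pow, map_neg, map_one, RingHom.map_det, mul_comm]
  rfl

/-- relations vanish on the line -/
theorem rel_line {X : σ → F} (hH : HRel k X) {s : σ → k}
    (hsX : ∀ f : MvPolynomial σ k, aeval X f = 0 → eval s f = 0) {f : MvPolynomial σ k}
    (hf : aeval X f = 0) (t : k) : eval (t • s) f = 0 := by
  rw [← sum_homogeneousComponent f, map_sum]
  refine Finset.sum_eq_zero fun d _ => ?_
  rw [eval_smul_hom' (homogeneousComponent_isHomogeneous d f), hsX _ (hH f hf d), mul_zero]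

/-- tangent vectors are determined by the homogeneous relations -/
theorem tgy_of_hom {X : σ → F} (hH : HRel k X) {s y : σ → k}
    (h : ∀ (f : MvPolynomial σ k) (n : ℕ), f.IsHomogeneous n → aeval X f = 0 →
      ∑ j, gr s f j * y j = 0) : TgY X s y := by
  intro f hf
  have h1 : ∀ j, eval s (pderiv j f) = ∑ d ∈ Finset.range (f.totalDegree + 1),
      gr s (homogeneousComponent d f) j := by
    intro j
    nth_rewrite 1 [← sum_homogeneousComponent f]
    rw [map_sum, map_sum]
    rfl
  simp only [h1, Finset.sum_mul]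
  rw [Finset.sum_comm]
  refine Finset.sum_eq_zero fun d _ => ?_
  exact h _ d (homogeneousComponent_isHomogeneous d f) (hH f hf d)

end

section line

variable {k σ : Type} [Field k] [Fintype σ]

/-- the equations of the line -/
noncomputable def ll (s : σ → k) (j₀ : σ) (j : {j : σ // j ≠ j₀}) : MvPolynomial σ k :=
  X j.1 - C (s j.1 / s j₀) * X j₀

/-- polynomials which vanish on the line -/
theorem line_mem [Infinite k] (s : σ → k) (j₀ : σ) (hj : s j₀ ≠ 0) (p : MvPolynomial σ k)
    (hp : ∀ t : k, eval (t • s) p = 0) : p ∈ Ideal.span (Set.range (ll s j₀)) := by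
  obtain ⟨φ, hφ⟩ : ∃ φ : σ → MvPolynomial σ k, ∀ j, φ j = C (s j / s j₀) * X j₀ :=
    ⟨_, fun _ => rfl⟩
  have h1 : aeval φ p = 0 := by
    refine MvPolynomial.funext fun x => ?_
    have h2 : eval x (aeval φ p) = eval (fun j => eval x (φ j)) p := by
      have h4 : (eval x).comp (aeval φ : MvPolynomial σ k →ₐ[k] MvPolynomial σ k).toRingHom =
          eval (fun j => eval x (φ j)) := by
        refine MvPolynomial.ringHom_ext (fun a => ?_) (fun i => ?_)
        · simp
        · simp
      exact congrArg (fun g : MvPolynomial σ k →+* k => g p) h4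
    rw [h2, map_zero]
    have h3 : (fun j => eval x (φ j)) = (x j₀ / s j₀) • s := by
      funext j
      rw [hφ, map_mul, eval_C, eval_X, Pi.smul_apply, smul_eq_mul]
      ring
    rw [h3]
    exact hp _
  have h2 : Ideal.Quotient.mkₐ k (Ideal.span (Set.range (ll s j₀))) =
      (Ideal.Quotient.mkₐ k (Ideal.span (Set.range (ll s j₀)))).comp (aeval φ) := by
    refine MvPolynomial.algHom_ext fun j => ?_
    rw [AlgHom.comp_apply, aeval_X]
    show (Ideal.Quotient.mk (Ideal.span (Set.range (ll s j₀)))) (X j) =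
      (Ideal.Quotient.mk (Ideal.span (Set.range (ll s j₀)))) (φ j)
    rw [Ideal.Quotient.eq, hφ]
    by_cases hjj : j = j₀
    · rw [hjj, div_self hj, C_1, one_mul, sub_self]
      exact Ideal.zero_mem _
    · exact Ideal.subset_span ⟨⟨j, hjj⟩, rfl⟩
  have h3 : Ideal.Quotient.mk (Ideal.span (Set.range (ll s j₀))) p =
      Ideal.Quotient.mk (Ideal.span (Set.range (ll s j₀))) (aeval φ p) :=
    congrArg (fun g : MvPolynomial σ k →ₐ[k] _ => g p) h2
  rw [h1, map_zero] at h3
  exact Ideal.Quotient.eq_zero_iff_mem.1 h3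

/-- the value of the equations -/
theorem eval_ll (s : σ → k) (j₀ : σ) (hj : s j₀ ≠ 0) (j : {j : σ // j ≠ j₀}) :
    eval s (ll s j₀ j) = 0 := by
  unfold ll
  rw [map_sub, map_mul, eval_X, eval_C, eval_X, div_mul_cancel₀ _ hj, sub_self]

/-- the gradient of the equations -/
theorem gr_ll [DecidableEq σ] (s : σ → k) (j₀ : σ) (i j : {j : σ // j ≠ j₀}) :
    eval s (pderiv j.1 (ll s j₀ i)) = (1 : Matrix {j : σ // j ≠ j₀} {j : σ // j ≠ j₀} k) i j := by
  unfold ll
  rw [map_sub, Derivation.leibniz, pderiv_C, smul_zero, add_zero, pderiv_X_of_ne j.2.symm,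
    smul_zero, sub_zero, Matrix.one_apply]
  by_cases h : i = j
  · rw [h, pderiv_X_self, map_one, if_pos rfl]
  · rw [if_neg h, pderiv_X_of_ne (fun h' => h (Subtype.ext h')), map_zero]

theorem orth_ll (s : σ → k) (j₀ : σ) (hj : s j₀ ≠ 0) (i : {j : σ // j ≠ j₀}) :
    ∑ j, gr s (ll s j₀ i) j * s j = 0 := by
  classical
  have h1 : ∀ j, gr s (ll s j₀ i) j = (if j = i.1 then 1 else 0) -
      (s i.1 / s j₀) * (if j = j₀ then 1 else 0) := by
    intro j
    unfold gr ll
    rw [map_sub, Derivation.leibniz, pderiv_C, smul_zero, add_zero, map_sub, smul_eq_mul,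
      map_mul, eval_C]
    congr 1
    · by_cases h : j = i.1
      · rw [h, pderiv_X_self, map_one, if_pos rfl]
      · rw [if_neg h, pderiv_X_of_ne (Ne.symm h), map_zero]
    · congr 1
      by_cases h : j = j₀
      · rw [h, pderiv_X_self, map_one, if_pos rfl]
      · rw [if_neg h, pderiv_X_of_ne (Ne.symm h), map_zero]
  simp only [h1, sub_mul, Finset.sum_sub_distrib]
  rw [Finset.sum_eq_single i.1, Finset.sum_eq_single j₀]
  · rw [if_pos rfl, if_pos rfl, one_mul, mul_one, div_mul_cancel₀ _ hj, sub_self]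
  · intro b _ hb
    rw [if_neg hb]
    ring
  · intro h
    exact absurd (Finset.mem_univ _) h
  · intro b _ hb
    rw [if_neg hb]
    ring
  · intro h
    exact absurd (Finset.mem_univ _) h

/-- elements with the gradients of the equations of the line generate its ideal at `s` -/
theorem local_gen [Infinite k] (s : σ → k) (j₀ : σ) (hj : s j₀ ≠ 0)
    (I : Ideal (MvPolynomial σ k))
    (h : ∀ i : {j : σ // j ≠ j₀}, ∃ A ∈ I, (∀ t : k, eval (t • s) A = 0) ∧
      gr s A = gr s (ll s j₀ i)) :
    ∃ h : MvPolynomial σ k, eval s h ≠ 0 ∧ ∀ p : MvPolynomial σ k,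
      (∀ t : k, eval (t • s) p = 0) → h * p ∈ I := by
  classical
  choose A hAI hAl hAg using h
  have h1 : ∀ i, ∃ c : {j : σ // j ≠ j₀} → MvPolynomial σ k, ∑ j, c j * ll s j₀ j = A i :=
    fun i => Ideal.mem_span_range_iff_exists_fun.1 (line_mem s j₀ hj (A i) (hAl i))
  choose b hb using h1
  have hbs : ∀ i j, eval s (b i j) =
      (1 : Matrix {j : σ // j ≠ j₀} {j : σ // j ≠ j₀} k) i j := by
    intro i j
    have h2 : eval s (pderiv j.1 (A i)) = eval s (pderiv j.1 (ll s j₀ i)) :=
      congrFun (hAg i) j.1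
    rw [gr_ll, ← hb i, map_sum, map_sum] at h2
    rw [← h2, Finset.sum_eq_single j]
    · rw [Derivation.leibniz, map_add, smul_eq_mul, smul_eq_mul, map_mul, map_mul, gr_ll,
        eval_ll s j₀ hj, Matrix.one_apply_eq, mul_one, zero_mul, add_zero]
    · intro j' _ hj'
      rw [Derivation.leibniz, map_add, smul_eq_mul, smul_eq_mul, map_mul, map_mul, gr_ll,
        eval_ll s j₀ hj, Matrix.one_apply_ne hj', mul_zero, zero_mul, add_zero]
    · intro h
      exact absurd (Finset.mem_univ _) h
  obtain ⟨M, hM⟩ : ∃ M : Matrix {j : σ // j ≠ j₀} {j : σ // j ≠ j₀} (MvPolynomial σ k),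
      M = Matrix.of b := ⟨_, rfl⟩
  have hMl : M.mulVec (ll s j₀) = A := by
    funext i
    rw [hM, ← hb i]
    rfl
  have hadj : ∀ j, M.det * ll s j₀ j ∈ I := by
    intro j
    have h2 : M.adjugate.mulVec (M.mulVec (ll s j₀)) = M.det • ll s j₀ := by
      rw [Matrix.mulVec_mulVec, Matrix.adjugate_mul, Matrix.smul_mulVec, Matrix.one_mulVec]
    have h3 : M.det * ll s j₀ j = M.adjugate.mulVec A j := by
      rw [← hMl, h2, Pi.smul_apply, smul_eq_mul]
    rw [h3]
    show ∑ i, M.adjugate j i * A i ∈ I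
    exact Ideal.sum_mem _ fun i _ => I.mul_mem_left _ (hAI i)
  refine ⟨M.det, ?_, fun p hp => ?_⟩
  · rw [RingHom.map_det, hM]
    have h2 : (eval s).mapMatrix (Matrix.of b) = 1 := by
      ext i j
      rw [RingHom.mapMatrix_apply, Matrix.map_apply, Matrix.of_apply, hbs]
    rw [h2, Matrix.det_one]
    exact one_ne_zero
  · obtain ⟨c, hc⟩ := Ideal.mem_span_range_iff_exists_fun.1 (line_mem s j₀ hj p hp)
    rw [← hc, Finset.mul_sum]
    refine Ideal.sum_mem _ fun j _ => ?_
    have h2 : M.det * (c j * ll s j₀ j) = c j * (M.det * ll s j₀ j) := by ring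
    rw [h2]
    exact I.mul_mem_left _ (hadj j)

end line

theorem pf_NKD : T_NKD := by
  classical
  intro k F σ _ _ _ _ _ X r hc hM hH m G hG s hs hsX hsG hN
  obtain ⟨f₀, hf₀, hg₀, hker⟩ := hN.ex
  have hrm : ∀ (f : Fin r → MvPolynomial σ k) (g : MvPolynomial σ k), (∀ i, aeval X (f i) = 0) →
      aeval X g = 0 → ∀ q, aeval X (Mnr g f q) = 0 := by
    intro f g hf hg q
    refine hM (Fin.snoc f g) (fun i => ?_) q
    refine Fin.lastCases ?_ (fun i => ?_) i
    · rw [Fin.snoc_last]
      exact hg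
    · rw [Fin.snoc_castSucc]
      exact hf i
  have hI : ∀ (f : Fin r → MvPolynomial σ k) (q : Fin (r + 1) → σ), (∀ i, aeval X (f i) = 0) →
      eval s (Mnr G f q) = 0 := by
    intro f q hf
    have h1 : Mnr G f q = Mnr (G - f₀) f q + Mnr f₀ f q := by
      rw [Mnr_sub]
      ring
    rw [h1, map_add, hsX _ (hrm f f₀ hf hf₀ q), add_zero, eval_Mnr, ← sum_yq]
    refine Finset.sum_eq_zero fun i _ => ?_
    have h2 : gr s (G - f₀) i = 0 := hg₀ i
    rw [h2, zero_mul]
  refine ⟨hI, ?_⟩
  -- homogeneous relations with independent gradients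
  obtain ⟨v, hv, hli⟩ := many_indep3 r hc {a : σ → k | ∃ (f : MvPolynomial σ k) (n : ℕ),
      f.IsHomogeneous n ∧ aeval X f = 0 ∧ a = gr s f} (by
    intro y hy
    exact hN.dim y fun i => tgy_of_hom hH fun f n hf hfX => hy i _ ⟨f, n, hf, hfX, rfl⟩)
  choose f n hfh hfX hfv using hv
  have hvf : v = fun i => gr s (f i) := funext hfv
  rw [hvf] at hli
  have hspan : ∀ g : MvPolynomial σ k, aeval X g = 0 →
      gr s g ∈ Submodule.span k (Set.range fun i => gr s (f i)) := by
    intro g hg
    by_contra hcon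
    have h1 : LinearIndependent k (Fin.snoc (fun i => gr s (f i)) (gr s g) :
        Fin (r + 1) → σ → k) := linearIndependent_finSnoc.2 ⟨hli, hcon⟩
    obtain ⟨q, hq⟩ := minor_ne _ h1
    apply hq
    rw [← eval_Mnr]
    exact hsX _ (hrm f g hfX hg q)
  have hTs : ∀ z, TgY X s z →
      z ∈ Submodule.span k (Set.range (yq (fun i => gr s (f i)))) := by
    intro z hz
    refine mem_span_of_dual _ _ fun w hw => ?_
    have h1 : w ∈ Submodule.span k (Set.range fun i => gr s (f i)) := by
      by_contra hcon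
      have h2 : LinearIndependent k (Fin.snoc (fun i => gr s (f i)) w :
        Fin (r + 1) → σ → k) := linearIndependent_finSnoc.2 ⟨hli, hcon⟩
      obtain ⟨q, hq⟩ := minor_ne _ h2
      apply hq
      rw [← sum_yq]
      exact hw _ ⟨q, rfl⟩
    refine orth_span _ z ?_ h1
    rintro _ ⟨i, rfl⟩
    exact hz (f i) (hfX i)
  obtain ⟨Hq, hHq⟩ : ∃ Hq : (Fin (r + 1) → σ) → σ → k, ∀ q, Hq q = fun i₀ =>
      ∑ i, eval s (pderiv i₀ (pderiv i (G - f₀))) * yq (fun i => gr s (f i)) q i :=
    ⟨_, fun _ => rfl⟩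
  have hb : ∀ a : σ → k, ∑ j, a j * s j = 0 →
      a ∈ Submodule.span k ((Set.range fun i => gr s (f i)) ∪ Set.range Hq) := by
    intro a ha
    refine mem_span_of_dual _ _ fun y hy => ?_
    have hyT : TgY X s y := by
      intro g hg
      refine orth_span _ y ?_ (hspan g hg)
      rintro _ ⟨i, rfl⟩
      have h1 := hy _ (Or.inl ⟨i, rfl⟩)
      rw [← h1]
      exact Finset.sum_congr rfl fun j _ => mul_comm _ _
    obtain ⟨c, hc'⟩ := hker y hyT (by
      intro z hz
      have h1 := orth_span (Set.range (yq (fun i => gr s (f i))))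
        (fun j => ∑ i, eval s (pderiv i (pderiv j (G - f₀))) * y i) (by
          rintro _ ⟨q, rfl⟩
          have h2 := hy _ (Or.inr ⟨q, rfl⟩)
          rw [hHq] at h2
          rw [← h2]
          simp only [Finset.mul_sum]
          rw [Finset.sum_comm]
          refine Finset.sum_congr rfl fun i _ => Finset.sum_congr rfl fun j _ => ?_
          ring) (hTs z hz)
      rw [← h1]
      simp only [Finset.mul_sum]
      rw [Finset.sum_comm]
      refine Finset.sum_congr rfl fun i _ => Finset.sum_congr rfl fun j _ => ?_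
      ring)
    rw [hc']
    have h3 : ∑ j, (c • s) j * a j = c * ∑ j, a j * s j := by
      rw [Finset.mul_sum]
      refine Finset.sum_congr rfl fun j _ => ?_
      rw [Pi.smul_apply, smul_eq_mul]
      ring
    rw [h3, ha, mul_zero]
  -- elements with given gradients
  have hA : ∀ a : σ → k, ∑ j, a j * s j = 0 → ∃ A ∈ JcI X r G,
      (∀ t : k, eval (t • s) A = 0) ∧ gr s A = a := by
    intro a ha
    let N : Submodule k (MvPolynomial σ k) :=
      { carrier := {A | A ∈ JcI X r G ∧ ∀ t : k, eval (t • s) A = 0}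
        zero_mem' := ⟨Ideal.zero_mem _, fun t => map_zero _⟩
        add_mem' := by
          rintro A B ⟨h1, h2⟩ ⟨h3, h4⟩
          refine ⟨Ideal.add_mem _ h1 h3, fun t => ?_⟩
          rw [map_add, h2, h4, add_zero]
        smul_mem' := by
          rintro c A ⟨h1, h2⟩
          refine ⟨?_, fun t => ?_⟩
          · rw [smul_eq_C_mul]
            exact Ideal.mul_mem_left _ _ h1
          · rw [smul_eval, h2, mul_zero] }
    have h2 : Submodule.span k ((Set.range fun i => gr s (f i)) ∪ Set.range Hq) ≤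
        N.map (grL s) := by
      rw [Submodule.span_le]
      rintro _ (⟨i, rfl⟩ | ⟨q, rfl⟩)
      · exact ⟨f i, ⟨Ideal.subset_span (Or.inl (Or.inl (hfX i))),
          fun t => rel_line hH hsX (hfX i) t⟩, rfl⟩
      · refine ⟨Mnr (G - f₀) f q, ⟨?_, fun t => ?_⟩, ?_⟩
        · rw [Mnr_sub]
          exact Ideal.sub_mem _ (Ideal.subset_span (Or.inr ⟨f, q, hfX, rfl⟩))
            (Ideal.subset_span (Or.inl (Or.inl (hrm f f₀ hfX hf₀ q))))
        · have h3 : (Mnr G f q).IsHomogeneous
              (∑ i, (Fin.snoc (fun i => n i - 1) (m - 1) : Fin (r + 1) → ℕ) i) := by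
            unfold Mnr
            refine det_hom _ _ fun i j => ?_
            rw [Matrix.of_apply]
            refine Fin.lastCases ?_ (fun i => ?_) i
            · rw [Fin.snoc_last, Fin.snoc_last]
              exact hG.pderiv
            · rw [Fin.snoc_castSucc, Fin.snoc_castSucc]
              exact (hfh i).pderiv
          rw [Mnr_sub, map_sub, rel_line hH hsX (hrm f f₀ hfX hf₀ q) t, sub_zero,
            eval_smul_hom' h3, hI f q hfX, mul_zero]
        · rw [hHq]
          exact gr_Mnr s (G - f₀) hg₀ f q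
    obtain ⟨A, hA1, hA2⟩ := h2 (hb a ha)
    exact ⟨A, hA1.1, hA1.2, hA2⟩
  -- conclusion
  obtain ⟨j₀, hj₀⟩ := Function.ne_iff.1 hs
  have hinf : Infinite k := inferInstance
  exact local_gen s j₀ hj₀ _ fun i => hA _ (orth_ll s j₀ hj₀ i)

end Pool.Agent.H35.S2
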