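import Pool.Agent.H3.S2.TgQ
import Pool.Agent.H94.SFG.MNZ

/-!
# MP_70ba79_ag, board `s2_modules`, row NKD: linear algebra
-/

set_option autoImplicit false

open MvPolynomial

namespace Pool.Agent.H35.S2

section linalg

variable {k σ : Type} [Field k] [Fintype σ]

/-- double annihilator -/
theorem mem_span_of_dual (S : Set (σ → k)) (z : σ → k)
    (h : ∀ w : σ → k, (∀ y ∈ S, ∑ j, w j * y j = 0) → ∑ j, w j * z j = 0) :
    z ∈ Submodule.span k S := by
  classical
  rw [← Subspace.forall_mem_dualAnnihilator_apply_eq_zero_iff]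
  intro φ hφ
  rw [LinearMap.pi_apply_eq_sum_univ φ z]
  have h1 := h (fun j => φ (fun i => if j = i then 1 else 0)) (fun y hy => by
    have h2 : φ y = 0 :=
      (Submodule.mem_dualAnnihilator φ).1 hφ y (Submodule.subset_span hy)
    rw [LinearMap.pi_apply_eq_sum_univ φ y] at h2
    refine Eq.trans (Finset.sum_congr rfl fun j _ => ?_) h2
    rw [smul_eq_mul, mul_comm])
  refine Eq.trans (Finset.sum_congr rfl fun j _ => ?_) h1
  rw [smul_eq_mul, mul_comm]

/-- a vector orthogonal to a set is orthogonal to its span -/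
theorem orth_span (S : Set (σ → k)) (y : σ → k) (h : ∀ b ∈ S, ∑ j, b j * y j = 0)
    {b : σ → k} (hb : b ∈ Submodule.span k S) : ∑ j, b j * y j = 0 := by
  induction hb using Submodule.span_induction with
  | mem b hb => exact h b hb
  | zero => simp
  | add b c _ _ hb hc =>
    rw [← add_zero (0 : k)]
    nth_rewrite 1 [← hb]
    rw [← hc, ← Finset.sum_add_distrib]
    refine Finset.sum_congr rfl fun j _ => ?_
    rw [Pi.add_apply, add_mul]
  | smul c b _ hb =>
    have h7 : ∑ j, (c • b) j * y j = c * ∑ j, b j * y j := by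
      rw [Finset.mul_sum]
      refine Finset.sum_congr rfl fun j _ => ?_
      rw [Pi.smul_apply, smul_eq_mul, mul_assoc]
    rw [h7, hb, mul_zero]

/-- if at most three independent vectors are orthogonal to a set, the set contains `r`
independent vectors -/
theorem many_indep3 (r : ℕ) (hc : Fintype.card σ = r + 3)
    (A : Set (σ → k)) (hA : ∀ y : Fin 4 → σ → k, (∀ i, ∀ a ∈ A, ∑ j, a j * y i j = 0) →
      ¬ LinearIndependent k y) :
    ∃ v : Fin r → σ → k, (∀ i, v i ∈ A) ∧ LinearIndependent k v := by
  classical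
  obtain ⟨d, f, hf, hsp, hli⟩ : ∃ (d : ℕ) (f : Fin d → σ → k), (∀ i, f i ∈ A) ∧
      Submodule.span k (Set.range f) = Submodule.span k A ∧ LinearIndependent k f := by
    obtain ⟨f, hf, hsp, hli⟩ := Submodule.exists_fun_fin_finrank_span_eq k A
    exact ⟨_, f, hf, hsp, hli⟩
  have hd : r ≤ d := by
    by_contra hlt
    set L : (σ → k) →ₗ[k] (Fin d → k) :=
      LinearMap.pi fun i => ∑ j, f i j • LinearMap.proj (R := k) j with hL
    have hLa : ∀ (y : σ → k) (i : Fin d), L y i = ∑ j, f i j * y j := by
      intro y i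
      rw [hL, LinearMap.pi_apply, LinearMap.sum_apply]
      rfl
    have h1 := LinearMap.finrank_range_add_finrank_ker L
    have h2 : Module.finrank k (LinearMap.range L) ≤ d := by
      refine (Submodule.finrank_le _).trans ?_
      rw [Module.finrank_fin_fun]
    rw [Module.finrank_fintype_fun_eq_card, hc] at h1
    have h3 : 4 ≤ Module.finrank k (LinearMap.ker L) := by omega
    obtain ⟨y, hy⟩ := exists_linearIndependent_of_le_finrank h3
    refine hA (fun i => (y i : σ → k)) (fun i a ha => ?_)
      (hy.map' (LinearMap.ker L).subtype (Submodule.ker_subtype _))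
    have h4 : a ∈ Submodule.span k (Set.range f) := by
      rw [hsp]
      exact Submodule.subset_span ha
    refine orth_span (Set.range f) (y i : σ → k) ?_ h4
    rintro b ⟨l, rfl⟩
    rw [← hLa]
    have h6 : L (y i : σ → k) = 0 := (y i).2
    rw [h6, Pi.zero_apply]
  exact ⟨fun i => f (Fin.castLE hd i), fun i => hf _, hli.comp _ (Fin.castLE_injective hd)⟩

end linalg

section lap

/-- expansion along the last row -/
theorem lap {R σ : Type} [CommRing R] {r : ℕ} (u : Fin r → σ → R) (v : σ → R)
    (q : Fin (r + 1) → σ) :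
    (Matrix.of fun i j => (Fin.snoc u v : Fin (r + 1) → σ → R) i (q j)).det =
      ∑ j : Fin (r + 1), v (q j) * ((-1) ^ (r + (j : ℕ)) *
        (Matrix.of fun i l : Fin r => u i (q (j.succAbove l))).det) := by
  rw [Matrix.det_succ_row _ (Fin.last r)]
  refine Finset.sum_congr rfl fun j _ => ?_
  have h1 : ((Matrix.of fun i j => (Fin.snoc u v : Fin (r + 1) → σ → R) i (q j)).submatrix
      (Fin.last r).succAbove j.succAbove) = Matrix.of fun i l : Fin r =>
        u i (q (j.succAbove l)) := by
    ext i l
    rw [Matrix.submatrix_apply, Matrix.of_apply, Matrix.of_apply, Fin.succAbove_last,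
      Fin.snoc_castSucc]
  rw [h1, Matrix.of_apply, Fin.snoc_last, Fin.val_last]
  ring

/-- the coefficient vector of the functional given by the minors -/
noncomputable def yq {R σ : Type} [CommRing R] {r : ℕ} (u : Fin r → σ → R)
    (q : Fin (r + 1) → σ) (i : σ) : R :=
  open Classical in
  ∑ j : Fin (r + 1), if q j = i then ((-1) ^ (r + (j : ℕ)) *
        (Matrix.of fun i l : Fin r => u i (q (j.succAbove l))).det) else 0

theorem sum_yq {R σ : Type} [CommRing R] [Fintype σ] {r : ℕ} (u : Fin r → σ → R) (v : σ → R)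
    (q : Fin (r + 1) → σ) :
    ∑ i, v i * yq u q i =
      (Matrix.of fun i j => (Fin.snoc u v : Fin (r + 1) → σ → R) i (q j)).det := by
  classical
  rw [lap]
  unfold yq
  simp only [Finset.mul_sum]
  rw [Finset.sum_comm]
  refine Finset.sum_congr rfl fun j _ => ?_
  rw [Finset.sum_eq_single (q j)]
  · rw [if_pos rfl]
  · intro b _ hb
    rw [if_neg (Ne.symm hb), mul_zero]
  · intro h
    exact absurd (Finset.mem_univ _) h

end lap

section hom

variable {k σ : Type} [Field k] [Fintype σ]

theorem eval_smul_hom' {p : MvPolynomial σ k} {n : ℕ} (hp : p.IsHomogeneous n) (t : k)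
    (s : σ → k) : eval (t • s) p = t ^ n * eval s p := by
  rw [eval_eq', eval_eq', Finset.mul_sum]
  refine Finset.sum_congr rfl fun d hd => ?_
  have h1 : ∑ i, d i = n := by
    have h2 := hp (mem_support_iff.1 hd)
    rw [← h2, Finsupp.weight_apply, Finsupp.sum_fintype]
    · simp
    · intro i
      simp
  have h3 : ∏ i, (t • s) i ^ d i = t ^ n * ∏ i, s i ^ d i := by
    rw [← h1, ← Finset.prod_pow_eq_pow_sum, ← Finset.prod_mul_distrib]
    refine Finset.prod_congr rfl fun i _ => ?_
    rw [Pi.smul_apply, smul_eq_mul, mul_pow]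
  rw [h3]
  ring

/-- a determinant whose row `i` is homogeneous of degree `e i` -/
theorem det_hom {n : ℕ} (M : Matrix (Fin n) (Fin n) (MvPolynomial σ k)) (e : Fin n → ℕ)
    (h : ∀ i j, (M i j).IsHomogeneous (e i)) : M.det.IsHomogeneous (∑ i, e i) := by
  rw [← Matrix.det_transpose, Matrix.det_apply]
  apply IsHomogeneous.sum
  intro τ _
  have h1 : (∏ i, M.transpose (τ i) i).IsHomogeneous (∑ i, e i) :=
    IsHomogeneous.prod _ _ _ fun i _ => h _ _
  rcases Int.units_eq_one_or (Equiv.Perm.sign τ) with h2 | h2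
  · rw [h2, one_smul]
    exact h1
  · rw [h2, Units.neg_smul, one_smul]
    exact (homogeneousSubmodule σ k _).neg_mem h1

end hom

end Pool.Agent.H35.S2
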